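import Pool.Agent.H447Z.FsQuot

set_option autoImplicit false

open scoped Manifold ContDiff NNReal
open H447Z.Fs

/-- A homogeneous Finsler structure `F` on `ℂ × ℝ` and a group `Γ` of isometries acting freely and
properly discontinuously, all of constant displacement, whose quotient (realised as an open subset
`U` of `ℝ × ℂ` through the covering `q`, with the induced function `F'`) is not homogeneous. -/
theorem Pool.Agent.Results.MP_6fe59b_gt.FinslerCounterexample.result :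
    ∃ (F : TangentBundle 𝓘(ℝ, ℂ × ℝ) (ℂ × ℝ) → ℝ) (Γ : Subgroup (Equiv.Perm (ℂ × ℝ))),
      IsFinsler F ∧ IsHomogeneous F ∧
      (∀ γ ∈ Γ, IsIsometry F γ) ∧
      (∀ γ ∈ Γ, ∀ x, γ x = x → γ = 1) ∧
      ProperlyDiscontinuousSMul Γ (ℂ × ℝ) ∧
      (∀ γ ∈ Γ, ∃ c : ℝ≥0, ∀ x, fdist F x (γ x) = c) ∧
      ∃ (U : TopologicalSpace.Opens (ℝ × ℂ)) (q : ℂ × ℝ → U)
        (F' : TangentBundle 𝓘(ℝ, ℝ × ℂ) U → ℝ),
        ContMDiff 𝓘(ℝ, ℂ × ℝ) 𝓘(ℝ, ℝ × ℂ) ∞ q ∧ Function.Surjective q ∧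
        (∀ x, Function.Bijective (mfderiv 𝓘(ℝ, ℂ × ℝ) 𝓘(ℝ, ℝ × ℂ) q x)) ∧
        (∀ x y, q x = q y ↔ ∃ γ ∈ Γ, γ x = y) ∧
        (∀ p, F' (tangentMap 𝓘(ℝ, ℂ × ℝ) 𝓘(ℝ, ℝ × ℂ) q p) = F p) ∧
        ¬ IsHomogeneous F' := by
  refine ⟨FM, Gam, finsler_FM, homog_FM, ?_, ?_, Gam_pd, ?_, U, pq, FU, smooth_pq, pq_surj, ?_, ?_,
    FU_pq, not_homog_FU⟩
  · intro γ hγ
    obtain ⟨k, rfl⟩ := mem_Gam.1 hγ
    exact isom_add k
  · intro γ hγ x hx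
    obtain ⟨k, rfl⟩ := mem_Gam.1 hγ
    have : (k : ℝ) • bb = 0 := by simpa using hx
    rw [this]
    exact Equiv.addRight_zero
  · intro γ hγ
    obtain ⟨k, rfl⟩ := mem_Gam.1 hγ
    refine ⟨Real.toNNReal √(Q ((k : ℝ) • bb)), fun x => ?_⟩
    exact fdist_cone x _ (by simp [P, bb])
  · intro x
    rw [mfderiv_pq]
    exact ⟨(DI_DL x).injective, (DL_DI x).surjective⟩
  · intro x y
    rw [eq_comm, pq_eq_iff]
    constructor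
    · rintro ⟨k, rfl⟩
      exact ⟨_, mem_Gam.2 ⟨k, rfl⟩, rfl⟩
    · rintro ⟨γ, hγ, rfl⟩
      obtain ⟨k, rfl⟩ := mem_Gam.1 hγ
      exact ⟨k, rfl⟩
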